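import Mathlib
import Pool.Agent.U73.LC.Stm

/-! Package RIE of project LC (helper73): Riemann sums over arithmetic progressions (helper312). -/

set_option autoImplicit false

namespace Pool.Agent.U312.LC

open Filter Topology MeasureTheory

/-- the point of the progression before `u T²` -/
noncomputable def A (m : ℕ) (α : ℤ) (T u : ℝ) : ℤ := α + m * ⌊(u * T ^ 2 - α) / m⌋

section

variable {m : ℕ} {α : ℤ} {T u : ℝ}

theorem A_mod : A m α T u ≡ α [ZMOD m] := by
  unfold A Int.ModEq
  rw [Int.add_mul_emod_self_left]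

theorem A_le (hm : (0 : ℝ) < m) : (A m α T u : ℝ) ≤ u * T ^ 2 := by
  unfold A
  have h1 := Int.floor_le ((u * T ^ 2 - α) / m)
  rw [le_div_iff₀ hm] at h1
  push_cast
  linarith

theorem lt_A (hm : (0 : ℝ) < m) : u * T ^ 2 < A m α T u + m := by
  unfold A
  have h1 := Int.lt_floor_add_one ((u * T ^ 2 - α) / m)
  rw [div_lt_iff₀ hm] at h1
  push_cast
  linarith

theorem A_uniq (hm : (0 : ℝ) < m) {a : ℤ} (ha : a ≡ α [ZMOD m]) (h1 : (a : ℝ) ≤ u * T ^ 2)
    (h2 : u * T ^ 2 < a + m) : a = A m α T u := by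
  obtain ⟨c, hc⟩ := ha.dvd
  have hc' : (α : ℝ) - a = m * c := by exact_mod_cast hc
  have h3 : ⌊(u * T ^ 2 - α) / m⌋ = -c := by
    rw [Int.floor_eq_iff]
    constructor
    · rw [le_div_iff₀ hm]
      push_cast
      linarith
    · rw [div_lt_iff₀ hm]
      push_cast
      linarith
  unfold A
  rw [h3]
  linarith

end

/-- the index set -/
noncomputable def Sx (m : ℕ) (α : ℤ) (M T : ℝ) : Finset ℤ :=
  (Finset.Icc (-⌊M * T ^ 2⌋) ⌊M * T ^ 2⌋).filter (fun a : ℤ => a ≡ α [ZMOD m])

/-- the step function -/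
noncomputable def F (f : ℝ → ℝ) (m : ℕ) (α : ℤ) (M T u : ℝ) : ℝ :=
  ∑ a ∈ Sx m α M T, (Set.Ico ((a : ℝ) / T ^ 2) ((a + m) / T ^ 2)).indicator
    (fun _ => f (a / T ^ 2)) u

theorem F_eq (f : ℝ → ℝ) {m : ℕ} (hm : (0 : ℝ) < m) (α : ℤ) (M : ℝ) {T : ℝ} (hT : 0 < T) (u : ℝ) :
    F f m α M T u = if A m α T u ∈ Sx m α M T then f (A m α T u / T ^ 2) else 0 := by
  have hT2 : 0 < T ^ 2 := by positivity
  unfold F
  rw [← Finset.sum_ite_eq (Sx m α M T) (A m α T u) (fun a => f (a / T ^ 2))]
  refine Finset.sum_congr rfl fun a ha => ?_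
  have ha2 : a ≡ α [ZMOD m] := (Finset.mem_filter.1 ha).2
  by_cases h : A m α T u = a
  · rw [if_pos h, Set.indicator_of_mem]
    rw [Set.mem_Ico, div_le_iff₀ hT2, lt_div_iff₀ hT2, ← h]
    exact ⟨A_le hm, lt_A hm⟩
  · rw [if_neg h, Set.indicator_of_notMem]
    rw [Set.mem_Ico, div_le_iff₀ hT2, lt_div_iff₀ hT2]
    rintro ⟨h1, h2⟩
    exact h (A_uniq hm ha2 h1 h2).symm

theorem F_int (f : ℝ → ℝ) {m : ℕ} (hm : (0 : ℝ) < m) (α : ℤ) (M : ℝ) {T : ℝ} (hT : 0 < T) :
    ∫ u, F f m α M T u = m * ((∑ a ∈ Sx m α M T, f (a / T ^ 2)) / T ^ 2) := by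
  have hT2 : 0 < T ^ 2 := by positivity
  unfold F
  rw [integral_finsetSum]
  · rw [Finset.sum_div, Finset.mul_sum]
    refine Finset.sum_congr rfl fun a _ => ?_
    rw [integral_indicator_const _ measurableSet_Ico, Real.volume_real_Ico_of_le]
    · rw [smul_eq_mul]
      field_simp
      ring
    · apply div_le_div_of_nonneg_right _ hT2.le
      linarith
  · intro a _
    rw [integrable_indicator_iff measurableSet_Ico]
    exact integrableOn_const (by rw [Real.volume_Ico]; exact ENNReal.ofReal_ne_top)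

theorem mem_Sx {m : ℕ} {α : ℤ} {M T u : ℝ} :
    A m α T u ∈ Sx m α M T ↔ -⌊M * T ^ 2⌋ ≤ A m α T u ∧ A m α T u ≤ ⌊M * T ^ 2⌋ := by
  unfold Sx
  rw [Finset.mem_filter, Finset.mem_Icc]
  exact ⟨fun h => h.1, fun h => ⟨h, A_mod⟩⟩

theorem lim (f : ℝ → ℝ) (hf : Continuous f) (m : ℕ) (α : ℤ) (M : ℝ) (hm : 1 ≤ m) (hM : 1 ≤ M) :
    Tendsto (fun T : ℝ => ∫ u, F f m α M T u) atTop
      (𝓝 (∫ u, (Set.Ioc (-M) M).indicator f u)) := by
  have hm1 : (1 : ℝ) ≤ m := by exact_mod_cast hm
  have hm0 : (0 : ℝ) < m := by linarith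
  obtain ⟨C, hC⟩ := isCompact_Icc.exists_bound_of_continuousOn (hf.continuousOn (s := Set.Icc (-M) M))
  have hC0 : 0 ≤ C := (norm_nonneg _).trans (hC M ⟨by linarith, le_rfl⟩)
  have hsq : Tendsto (fun T : ℝ => T ^ 2) atTop atTop := tendsto_pow_atTop (by norm_num)
  apply tendsto_integral_filter_of_dominated_convergence
    ((Set.Icc (-M) (M + m)).indicator fun _ => C)
  · filter_upwards with T
    apply Measurable.aestronglyMeasurable
    unfold F
    refine Finset.measurable_fun_sum _ fun a _ => ?_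
    exact measurable_const.indicator measurableSet_Ico
  · filter_upwards [eventually_ge_atTop (1 : ℝ)] with T hT
    filter_upwards with u
    have hT0 : 0 < T := by linarith
    have hT2 : 0 < T ^ 2 := by positivity
    have hT21 : 1 ≤ T ^ 2 := by nlinarith
    rw [F_eq f hm0 α M hT0 u]
    by_cases h : A m α T u ∈ Sx m α M T
    · rw [if_pos h]
      rw [mem_Sx] at h
      have h1 : (A m α T u : ℝ) ≤ M * T ^ 2 :=
        (by exact_mod_cast h.2 : (A m α T u : ℝ) ≤ ⌊M * T ^ 2⌋).trans (Int.floor_le _)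
      have h2 : -(M * T ^ 2) ≤ (A m α T u : ℝ) := by
        have : ((-⌊M * T ^ 2⌋ : ℤ) : ℝ) ≤ (A m α T u : ℝ) := by exact_mod_cast h.1
        push_cast at this
        have h3 := Int.floor_le (M * T ^ 2)
        linarith
      have h3 := A_le (m := m) (α := α) (T := T) (u := u) hm0
      have h4 := lt_A (m := m) (α := α) (T := T) (u := u) hm0
      rw [Set.indicator_of_mem]
      · apply hC
        rw [Set.mem_Icc, le_div_iff₀ hT2, div_le_iff₀ hT2]
        exact ⟨by linarith, h1⟩
      · constructor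
        · by_contra hcon
          push Not at hcon
          have := mul_lt_mul_of_pos_right hcon hT2
          linarith
        · by_contra hcon
          push Not at hcon
          have := mul_lt_mul_of_pos_right hcon hT2
          nlinarith
    · rw [if_neg h, norm_zero]
      exact Set.indicator_nonneg (fun _ _ => hC0) u
  · rw [integrable_indicator_iff measurableSet_Icc]
    exact integrableOn_const (by rw [Real.volume_Icc]; exact ENNReal.ofReal_ne_top)
  · have hne : ∀ᵐ u : ℝ, u ≠ M ∧ u ≠ -M := by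
      have h1 : ∀ᵐ u : ℝ, u ≠ M := by
        rw [ae_iff]
        simp
      have h2 : ∀ᵐ u : ℝ, u ≠ -M := by
        rw [ae_iff]
        simp
      filter_upwards [h1, h2] with u a b using ⟨a, b⟩
    filter_upwards [hne] with u hu
    rcases lt_or_gt_of_ne hu.1 with h1 | h1
    · rcases lt_or_gt_of_ne hu.2 with h2 | h2
      · -- `u < -M`
        rw [Set.indicator_of_notMem (fun h => by linarith [h.1])]
        apply tendsto_const_nhds.congr'
        filter_upwards [eventually_gt_atTop (0 : ℝ)] with T hT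
        have hT2 : 0 < T ^ 2 := by positivity
        rw [F_eq f hm0 α M hT u, if_neg]
        intro h
        rw [mem_Sx] at h
        have h3 := A_le (m := m) (α := α) (T := T) (u := u) hm0
        have h4 : ((-⌊M * T ^ 2⌋ : ℤ) : ℝ) ≤ (A m α T u : ℝ) := by exact_mod_cast h.1
        push_cast at h4
        have h5 := Int.floor_le (M * T ^ 2)
        nlinarith
      · -- `-M < u < M`
        rw [Set.indicator_of_mem (show u ∈ Set.Ioc (-M) M from ⟨h2, h1.le⟩)]
        have hA : Tendsto (fun T : ℝ => (A m α T u : ℝ) / T ^ 2) atTop (𝓝 u) := by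
          have e1 : Tendsto (fun T : ℝ => u - m / T ^ 2) atTop (𝓝 u) := by
            have := (tendsto_const_nhds (x := (m : ℝ))).div_atTop hsq
            simpa using (tendsto_const_nhds (x := u)).sub this
          refine tendsto_of_tendsto_of_tendsto_of_le_of_le' e1 tendsto_const_nhds ?_ ?_
          · filter_upwards [eventually_gt_atTop (0 : ℝ)] with T hT
            have hT2 : 0 < T ^ 2 := by positivity
            have h4 := lt_A (m := m) (α := α) (T := T) (u := u) hm0
            rw [le_div_iff₀ hT2, sub_mul, div_mul_cancel₀ _ hT2.ne']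
            linarith
          · filter_upwards [eventually_gt_atTop (0 : ℝ)] with T hT
            have hT2 : 0 < T ^ 2 := by positivity
            rw [div_le_iff₀ hT2]
            exact A_le hm0
        have hfA : Tendsto (fun T : ℝ => f ((A m α T u : ℝ) / T ^ 2)) atTop (𝓝 (f u)) :=
          (hf.tendsto u).comp hA
        apply hfA.congr'
        have hev : ∀ᶠ T : ℝ in atTop, (m + 1) / (u + M) ≤ T ^ 2 := hsq.eventually_ge_atTop _
        filter_upwards [eventually_gt_atTop (0 : ℝ), hev] with T hT hT3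
        have hT2 : 0 < T ^ 2 := by positivity
        rw [F_eq f hm0 α M hT u, if_pos]
        rw [mem_Sx]
        have h3 := A_le (m := m) (α := α) (T := T) (u := u) hm0
        have h4 := lt_A (m := m) (α := α) (T := T) (u := u) hm0
        constructor
        · rw [div_le_iff₀ (by linarith)] at hT3
          have h5 := Int.lt_floor_add_one (M * T ^ 2)
          have h6 : ((-⌊M * T ^ 2⌋ : ℤ) : ℝ) ≤ (A m α T u : ℝ) := by
            push_cast
            nlinarith
          exact_mod_cast h6
        · rw [Int.le_floor]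
          nlinarith
    · -- `M < u`
      rw [Set.indicator_of_notMem (fun h => by linarith [h.2])]
      apply tendsto_const_nhds.congr'
      have hev : ∀ᶠ T : ℝ in atTop, m / (u - M) ≤ T ^ 2 := hsq.eventually_ge_atTop _
      filter_upwards [eventually_gt_atTop (0 : ℝ), hev] with T hT hT3
      have hT2 : 0 < T ^ 2 := by positivity
      rw [F_eq f hm0 α M hT u, if_neg]
      intro h
      rw [mem_Sx] at h
      have h4 := lt_A (m := m) (α := α) (T := T) (u := u) hm0
      have h5 : (A m α T u : ℝ) ≤ ⌊M * T ^ 2⌋ := by exact_mod_cast h.2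
      have h6 := Int.floor_le (M * T ^ 2)
      rw [div_le_iff₀ (by linarith)] at hT3
      nlinarith

theorem t_RIE : Pool.Agent.U73.LC.S_RIE := by
  intro f hf m α M hm hM
  have hm1 : (1 : ℝ) ≤ m := by exact_mod_cast hm
  have hm0 : (0 : ℝ) < m := by linarith
  have h1 := (lim f hf m α M hm hM).const_mul (1 / (m : ℝ))
  have h2 : ∫ u in (-M)..M, f u = ∫ u, (Set.Ioc (-M) M).indicator f u := by
    rw [intervalIntegral.integral_of_le (by linarith), integral_indicator measurableSet_Ioc]
  rw [h2]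
  apply h1.congr'
  filter_upwards [eventually_gt_atTop (0 : ℝ)] with T hT
  rw [F_int f hm0 α M hT, ← mul_assoc, one_div_mul_cancel hm0.ne', one_mul]
  rfl

end Pool.Agent.U312.LC
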